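import Pool.Agent.Q209.DSp.HFCw

/-!
# Under CH there is a regular (hereditarily) Lindelöf space which is not a D-space

The space is a subspace `X` of `2^ω₁`, so it is zero-dimensional; it is hereditarily Lindelöf and
hereditarily separable, and it is not even dually discrete. The proof is explained in
`Results/MP_63e8ca_gt/HFCwNotDuallyDiscrete.lean`.
-/

set_option autoImplicit false

namespace Pool.Agent.Results.MP_414e75_gt.CHRegularHLNotD

open Cardinal Q209.DSp

/-- D-spaces: each open neighbourhood assignment has a closed discrete kernel. -/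
def DSpace (X : Type) [TopologicalSpace X] : Prop :=
  ∀ N : X → Set X, (∀ x, IsOpen (N x) ∧ x ∈ N x) →
    ∃ D : Set X, IsClosed D ∧ DiscreteTopology D ∧ ⋃ x ∈ D, N x = Set.univ

/-- Under CH there is a regular `T₁` space `X` with a base of clopen sets which is hereditarily
Lindelöf and hereditarily separable, but is not a D-space. Moreover some open neighbourhood
assignment on `X` has no kernel which is a finite union of discrete sets. -/
theorem result (hCH : continuum.{0} = aleph 1) :
    ∃ (X : Type) (_ : TopologicalSpace X),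
      T3Space X ∧ TopologicalSpace.IsTopologicalBasis {s : Set X | IsClopen s} ∧
      HereditarilyLindelofSpace X ∧
      (∀ t : Set X, ∃ c ⊆ t, c.Countable ∧ t ⊆ closure c) ∧
      ¬ DSpace X ∧
      ∃ N : X → Set X, (∀ x, IsOpen (N x) ∧ x ∈ N x) ∧
        ∀ (m : ℕ) (D : Fin m → Set X), (∀ j, DiscreteTopology (D j)) →
          (⋃ j, ⋃ x ∈ D j, N x) ≠ Set.univ := by
  obtain ⟨M, hM⟩ := exists_mat hCH
  refine ⟨Set.range M, inferInstance, inferInstance, ?_, hl hM, hsep hM, ?_, nb M,
    fun x => ⟨nb_open x, nb_mem hM x⟩, not_kernel hM⟩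
  · refine TopologicalSpace.isTopologicalBasis_of_isOpen_of_nhds (fun s hs => hs.isOpen) ?_
    intro x V hx hV
    obtain ⟨V', hV', rfl⟩ := isOpen_induced_iff.1 hV
    obtain ⟨S, hS⟩ := exists_Cy hV' hx
    refine ⟨Subtype.val ⁻¹' Cy x.1 S, ⟨?_, (isOpen_Cy _ _).preimage continuous_subtype_val⟩,
      fun _ _ => rfl, fun z hz => hS hz⟩
    have h1 : Cy x.1 S = ⋂ δ ∈ S, (fun z : Q209.Om.W1 → Bool => z δ) ⁻¹' {x.1 δ} := by
      ext z; simp [Cy]
    have h2 : IsClosed (Cy x.1 S) := by
      rw [h1]
      exact isClosed_biInter fun δ _ =>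
        (isClosed_discrete _).preimage (continuous_apply δ)
    exact h2.preimage continuous_subtype_val
  · intro h
    obtain ⟨D, -, hD, hU⟩ := h (nb M) fun x => ⟨nb_open x, nb_mem hM x⟩
    apply not_kernel hM 1 (fun _ => D) (fun _ => hD)
    rw [← hU]
    ext z
    simp

end Pool.Agent.Results.MP_414e75_gt.CHRegularHLNotD
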